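import Mathlib

/-!
# Cardinal functions of topological spaces
-/

set_option autoImplicit false
universe u

namespace Pool.Agent.N515.PWL

open Set Filter Topology

/-- The character of a space: the supremum of the least cardinalities of local bases, taken
infinite. -/
noncomputable def chr (X : Type u) [TopologicalSpace X] : Cardinal.{u} :=
  max Cardinal.aleph0 (⨆ x : X, sInf {κ : Cardinal.{u} | ∃ 𝓑 : Set (Set X),
    (𝓝 x).HasBasis (fun V => V ∈ 𝓑) id ∧ Cardinal.mk 𝓑 = κ})

/-- The piecewise weak Lindelöf number of a space: the least infinite cardinal `κ` such that for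
every open cover `𝒰` and every decomposition `𝒰 = ⋃ i, D i` there are subfamilies `V i` of `D i` of
cardinality at most `κ` such that the closures of the unions of the `V i` cover the space. -/
noncomputable def pwL (X : Type u) [TopologicalSpace X] : Cardinal.{u} :=
  sInf {κ : Cardinal.{u} | Cardinal.aleph0 ≤ κ ∧ ∀ 𝒰 : Set (Set X), (∀ U ∈ 𝒰, IsOpen U) →
    ⋃₀ 𝒰 = univ → ∀ (I : Type u) (D : I → Set (Set X)), (⋃ i, D i) = 𝒰 →
      ∃ V : I → Set (Set X), (∀ i, V i ⊆ D i ∧ Cardinal.mk (V i) ≤ κ) ∧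
        (⋃ i, closure (⋃₀ V i)) = univ}

/-- Every open cover has a countable subfamily whose closures cover the space. -/
def AlmostLindelof (X : Type u) [TopologicalSpace X] : Prop :=
  ∀ 𝒰 : Set (Set X), (∀ U ∈ 𝒰, IsOpen U) → ⋃₀ 𝒰 = univ →
    ∃ 𝒱 ⊆ 𝒰, 𝒱.Countable ∧ (⋃ V ∈ 𝒱, closure V) = univ

end Pool.Agent.N515.PWL
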