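import Pool.Agent.N515.PWL.Pts
import Pool.Agent.N515.PWL.Defs

/-!
# The free Hausdorff space is almost Lindelöf
-/

set_option autoImplicit false
universe u

namespace Pool.Agent.N515.PWL

open Set Filter Topology
open Pool.Agent.N515.Lind

variable {Z : Type u} (S : Sp Z) (e : Pt Z → Z)

theorem exists_fresh (ζ : Z) (τ : Ty) (w : Pt Z) (hw : ty w.2 = τ) :
    ∃ i < τ.length + 2, ((ζ, τ, i) : B Z) ∉ occ w := by
  classical
  by_contra hcon
  push Not at hcon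
  have h1 : (Finset.range (τ.length + 2)).card ≤ (occ w).toFinset.card := by
    refine Finset.card_le_card_of_injOn (fun i => ((ζ, τ, i) : B Z)) ?_ ?_
    · intro i hi
      have h2 : i < τ.length + 2 := by simpa using hi
      simpa using hcon i h2
    · intro i _ j _ hij
      exact (Prod.mk.inj (Prod.mk.inj hij).2).2
  have h3 := List.toFinset_card_le (occ w)
  have h4 : (occ w).length = w.2.length + 1 := by simp [occ]
  have h5 : τ.length = w.2.length := by rw [← hw]; simp [ty]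
  rw [Finset.card_range] at h1
  omega

theorem exists_cover (hZ : ∀ f : Z → ℕ, ∃ D : Set Z, D.Countable ∧
      ∀ y, ∃ ζ ∈ D, y ∈ S.U (f ζ) ζ) (he : Function.Injective e) (f : XX S e → ℕ) :
    ∃ D : Set (XX S e), D.Countable ∧ ∀ w, ∃ x ∈ D, w ∈ closure (N S e (f x) x) := by
  classical
  let g : Ty → Z → ℕ := fun τ ζ =>
    (Finset.range (τ.length + 2)).sup (fun i => f (bp S e (ζ, τ, i)))
  choose D hDc hD using fun τ => hZ (g τ)
  let D1 : Set (XX S e) := ⋃ τ : Ty, ⋃ i : ℕ, (fun ζ => bp S e (ζ, τ, i)) '' (D τ)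
  let D2 : Set (XX S e) := ⋃ τ : Ty, (fun w : XX S e => e w.1) ⁻¹' (D τ)
  refine ⟨D1 ∪ D2, ?_, ?_⟩
  · refine Countable.union ?_ ?_
    · exact countable_iUnion (fun τ => countable_iUnion (fun i => (hDc τ).image _))
    · refine countable_iUnion (fun τ => ?_)
      refine (hDc τ).preimage_of_injOn ?_
      intro w _ w' _ hww
      exact Subtype.ext (he hww)
  · intro w
    obtain ⟨ζ, hζ, hw⟩ := hD (ty w.1.2) (e w.1)
    by_cases h : e w.1 = ζ
    · refine ⟨w, Or.inr (mem_iUnion.2 ⟨ty w.1.2, ?_⟩), subset_closure (N_self S e _ w)⟩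
      show e w.1 ∈ D (ty w.1.2)
      rw [h]
      exact hζ
    · obtain ⟨i, hi, hocc⟩ := exists_fresh ζ (ty w.1.2) w.1 rfl
      refine ⟨bp S e (ζ, ty w.1.2, i), Or.inl ?_, ?_⟩
      · exact mem_iUnion.2 ⟨ty w.1.2, mem_iUnion.2 ⟨i, ⟨ζ, hζ, rfl⟩⟩⟩
      · apply mem_closure_N S e hocc
        have h1 : f (bp S e (ζ, ty w.1.2, i)) ≤ g (ty w.1.2) ζ :=
          Finset.le_sup (f := fun i => f (bp S e (ζ, ty w.1.2, i))) (Finset.mem_range.2 hi)
        have h2 := lt_cz S h hw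
        unfold c
        rw [if_pos rfl]
        show _ < bd (ty w.1.2) + cz S ζ (e w.1)
        omega

theorem lind_Z (S : Sp Z) (f : Z → ℕ) :
    ∃ D : Set Z, D.Countable ∧ ∀ y, ∃ ζ ∈ D, y ∈ S.U (f ζ) ζ := by
  have h := S.lindelof
  obtain ⟨t, ht, -, htc⟩ := h.isLindelof_univ.elim_nhds_subcover
    (U := fun ζ : S.Space => S.U (f ζ) ζ)
    (fun ζ _ => (S.isOpen_U (f ζ) ζ).mem_nhds (S.self (f ζ) ζ))
  refine ⟨t, ht, fun y => ?_⟩
  have hy := htc (mem_univ y)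
  obtain ⟨ζ, hζ, hy'⟩ := mem_iUnion₂.1 hy
  exact ⟨ζ, hζ, hy'⟩

theorem exists_inj (Z : Type u) [Infinite Z] : ∃ e : Pt Z → Z, Function.Injective e := by
  have h0 : Cardinal.aleph0 ≤ Cardinal.mk Z := Cardinal.aleph0_le_mk Z
  have hB : Cardinal.mk (B Z) = Cardinal.mk Z := by
    have h1 : Cardinal.mk (B Z) = Cardinal.mk Z * Cardinal.lift.{u} (Cardinal.mk (Ty × ℕ)) := by
      rw [Cardinal.mk_prod, Cardinal.lift_id'.{0, u}]
    rw [h1]
    have h2 : Cardinal.mk (Ty × ℕ) = Cardinal.aleph0 := Cardinal.mk_eq_aleph0 _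
    rw [h2, Cardinal.lift_aleph0]
    exact Cardinal.mul_aleph0_eq h0
  have hB2 : Cardinal.mk (B Z × ℕ × ℕ) = Cardinal.mk Z := by
    have h1 : Cardinal.mk (B Z × ℕ × ℕ) =
        Cardinal.mk (B Z) * Cardinal.lift.{u} (Cardinal.mk (ℕ × ℕ)) := by
      rw [Cardinal.mk_prod, Cardinal.lift_id'.{0, u}]
    rw [h1, hB]
    have h2 : Cardinal.mk (ℕ × ℕ) = Cardinal.aleph0 := Cardinal.mk_eq_aleph0 _
    rw [h2, Cardinal.lift_aleph0]
    exact Cardinal.mul_aleph0_eq h0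
  have hinf : Infinite (B Z × ℕ × ℕ) := by
    rw [Cardinal.infinite_iff, hB2]
    exact h0
  have hL : Cardinal.mk (List (B Z × ℕ × ℕ)) = Cardinal.mk Z := by
    rw [Cardinal.mk_list_eq_mk, hB2]
  have hP : Cardinal.mk (Pt Z) = Cardinal.mk Z := by
    have h1 : Cardinal.mk (Pt Z) = Cardinal.mk (B Z) * Cardinal.mk (List (B Z × ℕ × ℕ)) := by
      rw [Cardinal.mk_prod, Cardinal.lift_id, Cardinal.lift_id]
    rw [h1, hB, hL]
    exact Cardinal.mul_eq_self h0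
  obtain ⟨f⟩ := Cardinal.eq.1 hP
  exact ⟨f, f.injective⟩

theorem chr_eq (X : Type u) [TopologicalSpace X] [FirstCountableTopology X] :
    chr X = Cardinal.aleph0 := by
  refine max_eq_left (ciSup_le' (fun x => ?_))
  obtain ⟨s, hs⟩ := (𝓝 x).exists_antitone_basis
  have h1 : (𝓝 x).HasBasis (fun V => V ∈ range s) id := by
    refine ⟨fun t => ?_⟩
    rw [hs.1.mem_iff]
    constructor
    · rintro ⟨i, -, hi⟩
      exact ⟨s i, ⟨i, rfl⟩, hi⟩
    · rintro ⟨V, ⟨i, rfl⟩, hi⟩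
      exact ⟨i, trivial, hi⟩
  have h2 : Cardinal.mk (range s) ∈ {κ : Cardinal.{u} | ∃ 𝓑 : Set (Set X),
    (𝓝 x).HasBasis (fun V => V ∈ 𝓑) id ∧ Cardinal.mk 𝓑 = κ} := ⟨range s, h1, rfl⟩
  exact (csInf_le' h2).trans (Set.countable_range s).le_aleph0

theorem pwL_eq (X : Type u) [TopologicalSpace X] (h : AlmostLindelof X) :
    pwL X = Cardinal.aleph0 := by
  refine le_antisymm (csInf_le' ⟨le_rfl, ?_⟩) (le_csInf ?_ (fun κ hκ => hκ.1))
  · intro 𝒰 h1 h2 I D hD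
    obtain ⟨𝒱, h3, h4, h5⟩ := h 𝒰 h1 h2
    refine ⟨fun i => 𝒱 ∩ D i, fun i => ⟨inter_subset_right,
      (h4.mono inter_subset_left).le_aleph0⟩, ?_⟩
    rw [eq_univ_iff_forall] at h5 ⊢
    intro x
    obtain ⟨V, hV, hx⟩ := mem_iUnion₂.1 (h5 x)
    have hV' : V ∈ ⋃ i, D i := by rw [hD]; exact h3 hV
    obtain ⟨i, hi⟩ := mem_iUnion.1 hV'
    exact mem_iUnion.2 ⟨i, closure_mono
      (subset_sUnion_of_mem (show V ∈ 𝒱 ∩ D i from ⟨hV, hi⟩)) hx⟩
  · refine ⟨Cardinal.aleph0, le_rfl, ?_⟩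
    intro 𝒰 h1 h2 I D hD
    obtain ⟨𝒱, h3, h4, h5⟩ := h 𝒰 h1 h2
    refine ⟨fun i => 𝒱 ∩ D i, fun i => ⟨inter_subset_right,
      (h4.mono inter_subset_left).le_aleph0⟩, ?_⟩
    rw [eq_univ_iff_forall] at h5 ⊢
    intro x
    obtain ⟨V, hV, hx⟩ := mem_iUnion₂.1 (h5 x)
    have hV' : V ∈ ⋃ i, D i := by rw [hD]; exact h3 hV
    obtain ⟨i, hi⟩ := mem_iUnion.1 hV'
    exact mem_iUnion.2 ⟨i, closure_mono
      (subset_sUnion_of_mem (show V ∈ 𝒱 ∩ D i from ⟨hV, hi⟩)) hx⟩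

theorem almostLindelof (he : Function.Injective e) : AlmostLindelof (XX S e) := by
  classical
  intro 𝒰 h1 h2
  have h3 : ∀ x : XX S e, ∃ U ∈ 𝒰, ∃ n, N S e n x ⊆ U := by
    intro x
    have hx : x ∈ ⋃₀ 𝒰 := by rw [h2]; exact mem_univ x
    obtain ⟨U, hU, hxU⟩ := hx
    exact ⟨U, hU, h1 U hU x hxU⟩
  choose U hU f hf using h3
  obtain ⟨D, hDc, hD⟩ := exists_cover S e (lind_Z S) he f
  refine ⟨U '' D, ?_, hDc.image _, ?_⟩
  · rintro V ⟨x, -, rfl⟩
    exact hU x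
  · rw [eq_univ_iff_forall]
    intro w
    obtain ⟨x, hx, hw⟩ := hD w
    exact mem_iUnion₂.2 ⟨U x, ⟨x, hx, rfl⟩, closure_mono (hf x) hw⟩

/-- For every cardinal `κ` below the first inaccessible cardinal there is a first countable
almost Lindelöf Hausdorff space of cardinality at least `κ` and greater than the continuum. -/
theorem main (κ : Cardinal.{u}) (hκ : ∀ θ : Cardinal.{u}, θ.IsInaccessible → κ < θ) :
    ∃ (X : Type u) (_ : TopologicalSpace X), T2Space X ∧ AlmostLindelof X ∧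
      chr X = Cardinal.aleph0 ∧ pwL X = Cardinal.aleph0 ∧
      Cardinal.continuum.{u} < Cardinal.mk X ∧ κ ≤ Cardinal.mk X := by
  have hc : ∀ θ : Cardinal.{u}, θ.IsInaccessible →
      max κ (2 ^ Cardinal.continuum.{u}) < θ := by
    intro θ hθ
    have h1 : Cardinal.continuum.{u} < θ := by
      rw [← Cardinal.two_power_aleph0]
      exact hθ.isStrongPrelimit hθ.aleph0_lt
    exact max_lt (hκ θ hθ) (hθ.isStrongPrelimit h1)
  obtain ⟨Z, S, -, hZ⟩ := big_of_lt _ hc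
  have hle : max κ (2 ^ Cardinal.continuum.{u}) ≤ Cardinal.mk Z :=
    hZ.trans (Cardinal.mk_set_le _)
  have hlt : Cardinal.continuum.{u} < Cardinal.mk Z :=
    (Cardinal.cantor _).trans_le ((le_max_right _ _).trans hle)
  have hinf : Infinite Z := by
    rw [Cardinal.infinite_iff]
    exact Cardinal.aleph0_le_continuum.trans hlt.le
  obtain ⟨e, he⟩ := exists_inj Z
  have hX : Cardinal.mk Z ≤ Cardinal.mk (XX S e) := by
    refine Cardinal.mk_le_of_injective (f := fun ζ => bp S e (ζ, [], 0)) ?_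
    intro a b hab
    exact congrArg (fun x : XX S e => x.1.1.1) hab
  have hal := almostLindelof S e he
  exact ⟨XX S e, inferInstance, inferInstance, hal, chr_eq _, pwL_eq _ hal, hlt.trans_le hX,
    ((le_max_left _ _).trans hle).trans hX⟩

end Pool.Agent.N515.PWL
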