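import Pool.Agent.N515.Lind.Sum

/-!
# A free Hausdorff space over a T₁ space: points and neighbourhoods

Let `Z` be an infinite set with a Lindelöf first countable T₁ topology given by `S : Sp Z`. Points
are pairs `(b, l)` where `b` belongs to the set `B` of base points, and `l` is a list of triples
`(z, n, k)` with `z : B`. The point `(b, (z, n, k) :: l)` is put into the first `n` neighbourhoods
of the base point `z` and into the first `k` neighbourhoods of the point `(b, l)`.
-/

set_option autoImplicit false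
universe u

namespace Pool.Agent.N515.PWL

open Set Filter Topology
open Pool.Agent.N515.Lind

variable {Z : Type u} (S : Sp Z)

open Classical in
/-- The number of neighbourhoods of `ζ` containing `y`, and `0` if `y = ζ`. -/
noncomputable def cz (ζ y : Z) : ℕ := if h : y ≠ ζ then Nat.find (S.sep ζ y h) else 0

theorem lt_cz {ζ y : Z} (h : y ≠ ζ) {n : ℕ} (hn : y ∈ S.U n ζ) : n < cz S ζ y := by
  classical
  unfold cz
  rw [dif_pos h]
  by_contra hlt
  exact Nat.find_spec (S.sep ζ y h) (S.anti _ _ (not_lt.1 hlt) _ hn)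

/-- Types of points: the lists of the natural numbers occurring in a point. -/
abbrev Ty : Type := List (ℕ × ℕ)

/-- A strict bound for the numbers occurring in a type. -/
def bd : Ty → ℕ
  | [] => 0
  | p :: t => max (max p.1 p.2 + 1) (bd t)

theorem lt_bd_left (p : ℕ × ℕ) (t : Ty) : p.1 < bd (p :: t) := by
  unfold bd
  omega

theorem lt_bd_right (p : ℕ × ℕ) (t : Ty) : p.2 < bd (p :: t) := by
  unfold bd
  omega

theorem bd_le_bd (p : ℕ × ℕ) (t : Ty) : bd t ≤ bd (p :: t) := by
  show bd t ≤ max (max p.1 p.2 + 1) (bd t)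
  exact le_max_right _ _

/-- Base points. -/
abbrev B (Z : Type u) : Type u := Z × Ty × ℕ

/-- Points. -/
abbrev Pt (Z : Type u) : Type u := B Z × List (B Z × ℕ × ℕ)

/-- The type of a list. -/
def ty (l : List (B Z × ℕ × ℕ)) : Ty := l.map Prod.snd

/-- The base points occurring in a point. -/
def occ (w : Pt Z) : List (B Z) := w.1 :: w.2.map Prod.fst

variable (e : Pt Z → Z)

open Classical in
/-- The number of neighbourhoods of the base point `z` whose closure contains `w`. -/
noncomputable def c (z : B Z) (w : Pt Z) : ℕ :=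
  bd z.2.1 + if ty w.2 = z.2.1 then cz S z.1 (e w) else 0

theorem bd_le_c (z : B Z) (w : Pt Z) : bd z.2.1 ≤ c S e z w := Nat.le_add_right _ _

/-- Valid points. -/
def Valid (b : B Z) : List (B Z × ℕ × ℕ) → Prop
  | [] => True
  | p :: l => Valid b l ∧ p.1 ∉ occ (b, l) ∧ p.2.1 < c S e p.1 (b, l)

/-- `v` belongs to the `m`-th neighbourhood of `x`. -/
def In (m : ℕ) (x : Pt Z) (b : B Z) : List (B Z × ℕ × ℕ) → Prop
  | [] => x = (b, [])
  | p :: l => x = (b, p :: l) ∨ (x = (p.1, []) ∧ m ≤ p.2.1) ∨ (x = (b, l) ∧ m ≤ p.2.2) ∨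
      (x ≠ (b, l) ∧ In m x b l)

theorem In_self (m : ℕ) (b : B Z) (l : List (B Z × ℕ × ℕ)) : In m (b, l) b l := by
  cases l with
  | nil => exact rfl
  | cons p l => exact Or.inl rfl

theorem In_anti {m n : ℕ} (hmn : m ≤ n) (x : Pt Z) (b : B Z) (l : List (B Z × ℕ × ℕ)) :
    In n x b l → In m x b l := by
  induction l with
  | nil => exact id
  | cons p l ih =>
    rintro (h | ⟨h, h'⟩ | ⟨h, h'⟩ | ⟨h, h'⟩)
    · exact Or.inl h
    · exact Or.inr (Or.inl ⟨h, hmn.trans h'⟩)
    · exact Or.inr (Or.inr (Or.inl ⟨h, hmn.trans h'⟩))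
    · exact Or.inr (Or.inr (Or.inr ⟨h, ih h'⟩))

theorem In_length {m : ℕ} {x : Pt Z} {b : B Z} {l : List (B Z × ℕ × ℕ)} (h : In m x b l) :
    x = (b, l) ∨ x.2.length < l.length := by
  induction l with
  | nil => exact Or.inl h
  | cons p l ih =>
    rcases h with h | ⟨h, h'⟩ | ⟨h, h'⟩ | ⟨h, h'⟩
    · exact Or.inl h
    · right
      rw [h]
      simp
    · right
      rw [h]
      simp
    · right
      rcases ih h' with h2 | h2
      · exact absurd h2 h
      · simp only [List.length_cons]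
        omega

theorem In_bd {m : ℕ} {x : Pt Z} {b : B Z} {l : List (B Z × ℕ × ℕ)} (h : In m x b l)
    (hx : x ≠ (b, l)) : m < bd (ty l) := by
  induction l with
  | nil => exact absurd h hx
  | cons p l ih =>
    have e1 : ty (p :: l) = p.2 :: ty l := rfl
    rw [e1]
    rcases h with h | ⟨h, h'⟩ | ⟨h, h'⟩ | ⟨h, h'⟩
    · exact absurd h hx
    · exact h'.trans_lt (lt_bd_left _ _)
    · exact h'.trans_lt (lt_bd_right _ _)
    · exact (ih h' h).trans_le (bd_le_bd _ _)

theorem In_trans {m : ℕ} {x : Pt Z} {b' : B Z} {l' : List (B Z × ℕ × ℕ)} (h : In m x b' l')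
    (hx : x ≠ (b', l')) {b : B Z} {l : List (B Z × ℕ × ℕ)} (h2 : In 0 (b', l') b l) :
    In m x b l := by
  induction l with
  | nil =>
    have h3 : (b', l') = (b, []) := h2
    obtain ⟨rfl, rfl⟩ := Prod.mk.inj h3
    exact h
  | cons p l ih =>
    rcases h2 with h2 | ⟨h2, h3⟩ | ⟨h2, h3⟩ | ⟨h2, h3⟩
    · obtain ⟨rfl, rfl⟩ := Prod.mk.inj h2
      exact h
    · obtain ⟨rfl, rfl⟩ := Prod.mk.inj h2
      exact absurd h hx
    · obtain ⟨rfl, rfl⟩ := Prod.mk.inj h2
      exact Or.inr (Or.inr (Or.inr ⟨hx, h⟩))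
    · refine Or.inr (Or.inr (Or.inr ⟨?_, ih h3⟩))
      intro hxl
      rcases In_length h with h4 | h4
      · exact hx h4
      · rcases In_length h3 with h5 | h5
        · exact h2 h5
        · rw [hxl] at h4
          have h5' : l'.length < l.length := h5
          have h4' : l.length < l'.length := h4
          omega

theorem c_le {m : ℕ} {z : B Z} {y : Pt Z} {b : B Z} {l : List (B Z × ℕ × ℕ)} (h : In m y b l)
    (hy : y ≠ (b, l)) (hm : c S e z y ≤ m) : c S e z (b, l) ≤ c S e z y := by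
  classical
  by_cases ht : ty l = z.2.1
  · exfalso
    have h1 := In_bd h hy
    rw [ht] at h1
    have h2 := bd_le_c S e z y
    omega
  · have h1 : c S e z (b, l) = bd z.2.1 := by
      unfold c
      rw [if_neg ht]
      rfl
    rw [h1]
    exact bd_le_c S e z y

/-- Hausdorff separation. -/
theorem In_disj {m : ℕ} {x y : Pt Z} (hxy : x ≠ y) (h1 : ¬ In m x y.1 y.2)
    (h2 : ¬ In m y x.1 x.2) (h3 : x.2 = [] → c S e x.1 y ≤ m) (h4 : y.2 = [] → c S e y.1 x ≤ m)
    {b : B Z} {l : List (B Z × ℕ × ℕ)} (hv : Valid S e b l) (hx : In m x b l)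
    (hy : In m y b l) : False := by
  induction l with
  | nil => exact hxy (hx.trans hy.symm)
  | cons p l ih =>
    have hxne : x ≠ (b, p :: l) := fun h => h2 (by rw [h]; exact hy)
    have hyne : y ≠ (b, p :: l) := fun h => h1 (by rw [h]; exact hx)
    rcases hx with hx | ⟨hx, hx'⟩ | ⟨hx, hx'⟩ | ⟨hx, hx'⟩
    · exact hxne hx
    · rcases hy with hy | ⟨hy, hy'⟩ | ⟨hy, hy'⟩ | ⟨hy, hy'⟩
      · exact hyne hy
      · exact hxy (hx.trans hy.symm)
      · have g1 := h3 (by rw [hx])
        rw [hx, hy] at g1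
        have g2 := hv.2.2
        have g3 : c S e p.1 (b, l) ≤ m := g1
        omega
      · have g1 := h3 (by rw [hx])
        rw [hx] at g1
        have g2 := hv.2.2
        have g3 := c_le S e hy' hy g1
        have g4 : c S e (p.1) (b, l) ≤ c S e p.1 y := g3
        have g5 : c S e p.1 y ≤ m := g1
        omega
    · rcases hy with hy | ⟨hy, hy'⟩ | ⟨hy, hy'⟩ | ⟨hy, hy'⟩
      · exact hyne hy
      · have g1 := h4 (by rw [hy])
        rw [hx, hy] at g1
        have g2 := hv.2.2
        have g3 : c S e p.1 (b, l) ≤ m := g1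
        omega
      · exact hxy (hx.trans hy.symm)
      · exact h2 (by rw [hx]; exact hy')
    · rcases hy with hy | ⟨hy, hy'⟩ | ⟨hy, hy'⟩ | ⟨hy, hy'⟩
      · exact hyne hy
      · have g1 := h4 (by rw [hy])
        rw [hy] at g1
        have g2 := hv.2.2
        have g3 := c_le S e hx' hx g1
        have g4 : c S e (p.1) (b, l) ≤ c S e p.1 x := g3
        have g5 : c S e p.1 x ≤ m := g1
        omega
      · exact h1 (by rw [hy]; exact hx')
      · exact ih hv.1 hx' hy'

/-- The set of points of the space. -/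
def XX : Type u := {w : Pt Z // Valid S e w.1 w.2}

/-- The basic neighbourhoods. -/
def N (m : ℕ) (x : XX S e) : Set (XX S e) := {v | In m x.1 v.1.1 v.1.2}

theorem N_self (m : ℕ) (x : XX S e) : x ∈ N S e m x := In_self m x.1.1 x.1.2

theorem N_anti {m n : ℕ} (hmn : m ≤ n) (x : XX S e) : N S e n x ⊆ N S e m x :=
  fun _ hv => In_anti hmn _ _ _ hv

theorem N_open {m : ℕ} {x y : XX S e} (hy : y ∈ N S e m x) : ∃ k, N S e k y ⊆ N S e m x := by
  by_cases h : y = x
  · exact ⟨m, by rw [h]⟩
  · refine ⟨0, fun v hv => ?_⟩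
    exact In_trans (x := x.1) (b' := y.1.1) (l' := y.1.2) hy
      (fun hh => h (Subtype.ext hh.symm)) hv

instance instTop : TopologicalSpace (XX S e) where
  IsOpen O := ∀ x ∈ O, ∃ n, N S e n x ⊆ O
  isOpen_univ := fun _ _ => ⟨0, subset_univ _⟩
  isOpen_inter := by
    rintro s t hs ht x ⟨hxs, hxt⟩
    obtain ⟨n, hn⟩ := hs x hxs
    obtain ⟨m, hm⟩ := ht x hxt
    exact ⟨max n m, subset_inter ((N_anti S e (le_max_left _ _) x).trans hn)
      ((N_anti S e (le_max_right _ _) x).trans hm)⟩
  isOpen_sUnion := by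
    rintro s hs x ⟨t, hts, hxt⟩
    obtain ⟨n, hn⟩ := hs t hts x hxt
    exact ⟨n, hn.trans (subset_sUnion_of_mem hts)⟩

theorem isOpen_N (m : ℕ) (x : XX S e) : IsOpen (N S e m x) := fun _ hy => N_open S e hy

theorem nhds_basis (x : XX S e) :
    (𝓝 x).HasBasis (fun _ : ℕ => True) (fun n => N S e n x) := by
  refine ⟨fun s => ?_⟩
  rw [mem_nhds_iff]
  constructor
  · rintro ⟨t, hts, ht, hx⟩
    obtain ⟨n, hn⟩ := ht x hx
    exact ⟨n, trivial, hn.trans hts⟩
  · rintro ⟨n, -, hn⟩
    exact ⟨N S e n x, hn, isOpen_N S e n x, N_self S e n x⟩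

instance instFC : FirstCountableTopology (XX S e) where
  nhds_generated_countable x := (nhds_basis S e x).isCountablyGenerated

instance instT2 : T2Space (XX S e) where
  t2 x y hxy := by
    have hne : x.1 ≠ y.1 := fun h => hxy (Subtype.ext h)
    let m := max (max (bd (ty y.1.2)) (bd (ty x.1.2))) (max (c S e x.1.1 y.1) (c S e y.1.1 x.1))
    have m1 : bd (ty y.1.2) ≤ m := (le_max_left _ _).trans (le_max_left _ _)
    have m2 : bd (ty x.1.2) ≤ m := (le_max_right _ _).trans (le_max_left _ _)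
    have m3 : c S e x.1.1 y.1 ≤ m := (le_max_left _ _).trans (le_max_right _ _)
    have m4 : c S e y.1.1 x.1 ≤ m := (le_max_right _ _).trans (le_max_right _ _)
    refine ⟨N S e m x, N S e m y, isOpen_N S e m x, isOpen_N S e m y, N_self S e m x,
      N_self S e m y, ?_⟩
    rw [Set.disjoint_left]
    intro v hv1 hv2
    refine In_disj S e (m := m) hne ?_ ?_ (fun _ => m3) (fun _ => m4) v.2 hv1 hv2
    · intro h
      have := In_bd h hne
      omega
    · intro h
      have := In_bd h hne.symm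
      omega

/-- The base point `z` as a point of the space. -/
def bp (z : B Z) : XX S e := ⟨(z, []), trivial⟩

theorem mem_closure_N {z : B Z} {w : XX S e} (hz : z ∉ occ w.1) {n : ℕ}
    (hn : n < c S e z w.1) : w ∈ closure (N S e n (bp S e z)) := by
  rw [mem_closure_iff_nhds_basis (nhds_basis S e w)]
  intro k _
  refine ⟨⟨(w.1.1, (z, n, k) :: w.1.2), w.2, hz, hn⟩, ?_, ?_⟩
  · exact Or.inr (Or.inl ⟨rfl, le_rfl⟩)
  · exact Or.inr (Or.inr (Or.inl ⟨rfl, le_rfl⟩))

end Pool.Agent.N515.PWL
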